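import Pool.Agent.N202.CF.Main

/-!
# The common `ℚ`-form of the `ℓ`-adic monodromy groups is decided by tensors of degree four

Let `A` be an abelian variety over a number field `F ⊂ ℂ`, `V = H^1(A(ℂ), ℚ)` with a basis indexed by
`ι`, `Γ` the absolute Galois group of `F`, `ρ ℓ` its representation on `V_ℓ = V ⊗ ℚ_ℓ = H^1(A, ℚ_ℓ)`,
`χ ℓ` its character on `ℚ_ℓ(-1)`, and `G_ℓ` the identity component of the Zariski closure of the
image of `ρ ℓ`. The structure `Known` collects the known properties of `ρ ℓ`: Weil pairing,
continuity, weights, the theorems of Faltings, and the theorem that the centre of the Lie algebra of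
`G_ℓ` is given by the centre `C` of the Lie algebra of the Hodge group (it is zero if `A` has no simple
factor of type IV).

The question of Mumford, Serre and Tate is whether there is an algebraic group `G` over `ℚ` with
`G_{ℚ_ℓ} = G_ℓ` for all sufficiently large `ℓ`.

Theorem: let `Λ` be any set of prime numbers, for instance all `ℓ ≥ ℓ₀`. The following are
equivalent.

* The groups `G_ℓ`, `ℓ ∈ Λ`, have a common `ℚ`-form: there is a set `S` of polynomials over `ℚ` which
  defines all the groups `G_ℓ`, `ℓ ∈ Λ`.
* The `ℓ`-adic Tate tensors of degree **four**, the Tate classes (of codimension two) in the component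
  `H^1(A, ℚ_ℓ)^(⊗ 4) (2)` of the cohomology of `A^4`, have a common `ℚ`-form for `ℓ ∈ Λ`: they are the
  combinations, with coefficients in `ℚ_ℓ`, of the members of a set `T` of elements of
  `H^1(A(ℂ), ℚ)^(⊗ 4)` which does not depend on `ℓ`.
* The Lie algebras of the groups `G_ℓ`, `ℓ ∈ Λ`, have a common `ℚ`-form.
* The Tate tensors of degree `2 m`, `ℓ ∈ Λ`, have a common `ℚ`-form for every `m`.

The proof. The Lie algebra `𝔤` spanned by the (twisted) logarithms of the elements of a small open
subgroup has an equivariant projector `p : End(V_ℓ) → 𝔤` by semisimplicity; with the polarisation `p`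
becomes a Tate tensor of degree four. Let `𝔥` be the set of the rational matrices which are skew for
the polarisation, commute with the endomorphisms of `A` and kill the common `ℚ`-form of the Tate
tensors of degree four. An element `y` of `𝔥 ⊗ ℚ_ℓ` commutes with `p`, so `y - p(y)` commutes with `𝔤`,
it comes from endomorphisms of `A` (Faltings), and it is central in `𝔥 ⊗ ℚ_ℓ`. Therefore the commutator
of `𝔥 ⊗ ℚ_ℓ` is the commutator of `𝔤`, and together with the centre it gives the `ℚ`-form of the Lie
algebra, and so of all Tate tensors. The group over `ℚ` is given by all rational polynomials which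
vanish on `G_ℓ` for all `ℓ ∈ Λ`: by the double commutant theorem in the tensor powers of `V_ℓ` a matrix
which fixes the Tate tensors (up to the multiplier) belongs to `G_ℓ`. Conversely the tensors fixed by
an algebraic group over `ℚ` are defined over `ℚ` and do not depend on `ℓ`, since `ℚ_ℓ^alg` is
isomorphic to `ℂ`.
-/

set_option autoImplicit false

namespace Pool.Agent.Results.MP_e965d0_ag.CommonFormInDegreeFour

open Pool.Agent.N202.CF

/-- **The common `ℚ`-form is decided by the Tate tensors of degree four.** -/
theorem result {ι : Type} [Fintype ι] [DecidableEq ι] (B : Matrix ι ι ℚ) (hB : IsUnit B.det)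
    (E C : Set (Matrix ι ι ℚ)) {Γ : Type} [Group Γ]
    (ρ : ∀ (ℓ : ℕ) [Fact ℓ.Prime], Γ →* Matrix ι ι ℚ_[ℓ])
    (χ : ∀ (ℓ : ℕ) [Fact ℓ.Prime], Γ →* ℚ_[ℓ]) (Λ : Set ℕ)
    (h : ∀ (ℓ : ℕ) [Fact ℓ.Prime], ℓ ∈ Λ → Known B E C ℓ (ρ ℓ) (χ ℓ)) :
    (CommonGroup Λ ρ ↔ CommonTate Λ ρ χ 4) ∧ (CommonLie Λ ρ χ ↔ CommonTate Λ ρ χ 4) ∧
      ((∀ m, CommonTate Λ ρ χ (2 * m)) ↔ CommonTate Λ ρ χ 4) :=
  main B hB E C ρ χ Λ h

end Pool.Agent.Results.MP_e965d0_ag.CommonFormInDegreeFour
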