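import Pool.Agent.N197.QF.Fin2

/-!
# Common ℚ-forms of the `ℓ`-adic monodromy groups: splitting off factors with a large image modulo two

Let `K` be a number field, let `A i`, for `i` in a finite nonempty set, be abelian varieties over `K` of
dimension `≥ 3`, and let `B` be an ARBITRARY abelian variety over `K`. We choose rational bases of the first
Betti homology groups; `J i` and `J'` are the matrices of polarizations, `r i ℓ` and `R ℓ` are the Galois
representations on the `ℓ`-adic Tate modules `V_ℓ`, in the same bases (comparison isomorphism), for ALL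
prime numbers `ℓ`. The structure `IsAbelianVariety` lists known properties: continuity, the Weil pairing,
the Frobenius polynomials, independent of `ℓ` and with Weil numbers of weight one as roots; `IsFaltings`
lists semisimplicity and the Tate conjecture for endomorphisms (`E i` is the set of the rational
matrices which are given by the endomorphisms of `A i` over the algebraic closure).

The hypotheses on the image of Galois concern only the image modulo TWO:

* `LargeModTwo`: the bases of the `H₁(A i)` are integral at two, the polarizations are integral, there are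
  `N i + 1` integral vectors `e i a` with odd mutual products (they exist for every integral alternating
  form with odd determinant), and each EVEN permutation of the vectors `e i a` modulo two is the action of
  some element of the Galois group which acts trivially on `A j [2]` for `j ≠ i`. For example if the
  joint image modulo two contains the product of the groups `Sp(N i, 𝔽₂)`, or only the product of the
  alternating groups of degrees `N i + 1`, as for the Jacobians of `y² = f i (x)` of odd degrees `N i + 1`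
  with Galois groups `S` or `A` and independent splitting fields.
* `FreeValues`: `B [2]` does not absorb the action on the frames: for each `i` some element of the Galois
  group acts trivially on `B [2]` and permutes the frames modulo two, the `i`-th one not trivially;
  or `(N i + 1)! > 2 ^ (d ^ 2 + 1)` with `d = 2 dim B`.

Let `𝔤_ℓ` be the Lie algebra of the kernel of the multiplier in the algebraic monodromy group at `ℓ`: by
Faltings' theorem it is the set of the linear maps which kill all Tate tensors, that is all multilinear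
forms which are multiplied by a power `χ ^ c` of the cyclotomic character on a subgroup of finite index
(`InLieAlgebra`). The Lie algebra of the algebraic monodromy group is the sum of `𝔤_ℓ` and the scalars.

**Theorem.** (1) For EVERY prime number `ℓ`: `𝔤_ℓ(∏ A i × B) = ∏ sp(J i) × 𝔤_ℓ(B)`.

(2) For every set `L` of prime numbers (for instance all sufficiently large ones): the Lie algebras
`𝔤_ℓ(∏ A i × B)`, `ℓ ∈ L`, have a common ℚ-form (they are the spans over `ℚ_ℓ` of one and the same set of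
rational matrices) if and only if the Lie algebras `𝔤_ℓ(B)`, `ℓ ∈ L`, have a common ℚ-form.

A connected algebraic group in characteristic zero is determined by its Lie algebra, so (2) says that the
question of the common ℚ-form for `∏ A i × B` is EQUIVALENT to the question for `B`. Nothing is assumed about
the image of Galois at other prime numbers, about endomorphisms, Frobenius polynomials, or the reduction
of the varieties, and nothing but `FreeValues` about `B`. For `dim A i` odd and `End (A i) = ℤ`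
compare MP_e965d0_ag.SplittingOffFactors (for all `B`); here `dim A i` may be even.

Idea of the proof. By MP_938ce2_ag.EveryPrimeAnyFactor, applied to the pure motives of the multilinear forms
on `H₁(B)` in `b` variables, all mixed Tate forms on `∏ A i` and `B`, ALTERNATING in the variables of powers
of `∏ A i`, are combinations of products of Tate forms of degree two on `∏ A i` and Tate forms of `B`; every
multilinear form comes from an alternating form on a power. A pair `(X, Y)` with `X` in `∏ sp(J i)` and `Y`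
in `𝔤_ℓ(B)` kills such products. Conversely, the sub-representations of the product are given by Tate
tensors of degree two, hence `𝔤_ℓ` of the product is contained in the product. At the prime number two
the endomorphisms of `A i` are scalars, as all elements of `sp(J i)` are tangent vectors of the image
of Galois; hence they are scalars at all prime numbers.
-/

set_option autoImplicit false

namespace Pool.Agent.Results.MP_e965d0_ag.LargeImageModTwoFactors

open Matrix Polynomial NumberField IsDedekindDomain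
open Pool.Agent.H204R3.GP (FiniteIndexSemisimple)

/-- the absolute Galois group, with the profinite (Krull) topology -/
abbrev AbsoluteGaloisGroup (K : Type) [Field K] : Type := Gal(AlgebraicClosure K/K)

/-- `σ` is an (arithmetic) Frobenius element at the prime `v` of `K`: there is a maximal ideal `Q` above
`v` of the ring of all algebraic integers with `σ x ≡ x ^ N(v)` modulo `Q` for all `x` -/
def IsFrobenius {K : Type} [Field K] [NumberField K] (v : HeightOneSpectrum (𝓞 K))
    (σ : AbsoluteGaloisGroup K) : Prop :=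
  ∃ Q : Ideal (𝓞 (AlgebraicClosure K)), Q.IsMaximal ∧
    Q.comap (algebraMap (𝓞 K) (𝓞 (AlgebraicClosure K))) = v.asIdeal ∧
    ∀ x : 𝓞 (AlgebraicClosure K), σ • x - x ^ Ideal.absNorm v.asIdeal ∈ Q

/-- The roots of the rational polynomial `P` are algebraic integers of absolute value `q ^ (1 / 2)`, with
`q` the number of elements of the residue field of `v`. -/
def IsWeil {K : Type} [Field K] [NumberField K] (v : HeightOneSpectrum (𝓞 K)) (P : ℚ[X]) : Prop :=
  ∀ z : ℂ, aeval z P = 0 → ‖z‖ ^ 2 = (Ideal.absNorm v.asIdeal : ℝ) ∧ IsIntegral ℤ z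

/-- `χ` is the cyclotomic character with values in `ℚ_ℓ` -/
structure IsCyclotomic {K : Type} [Field K] [NumberField K] (S : Set (HeightOneSpectrum (𝓞 K)))
    (ℓ : ℕ) [Fact ℓ.Prime] (χ : AbsoluteGaloisGroup K →* ℚ_[ℓ]) : Prop where
  continuous : Continuous χ
  frobenius : ∀ v ∉ S, (ℓ : 𝓞 K) ∉ v.asIdeal → ∀ σ : AbsoluteGaloisGroup K, IsFrobenius v σ →
    χ σ = (Ideal.absNorm v.asIdeal : ℚ_[ℓ])

/-- the rational matrix as an `ℓ`-adic matrix -/
noncomputable def adic (ℓ : ℕ) [Fact ℓ.Prime] {I : Type} (J : Matrix I I ℚ) : Matrix I I ℚ_[ℓ] :=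
  J.map (Rat.castHom ℚ_[ℓ])

/-- `r ℓ`, for all prime numbers `ℓ`, are the Galois representations on the `ℓ`-adic Tate modules of a
polarized abelian variety with good reduction outside of `S`, in a rational basis of the Betti homology:
they are continuous and act by similitudes of the alternating form `J` with the factor `χ ℓ`; the
characteristic polynomial `P v` of the Frobenius elements at `v` does not depend on `ℓ`, and has Weil
numbers of weight one as roots. -/
structure IsAbelianVariety {K : Type} [Field K] [NumberField K] (S : Set (HeightOneSpectrum (𝓞 K)))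
    (P : HeightOneSpectrum (𝓞 K) → ℚ[X])
    (χ : ∀ (ℓ : ℕ) [Fact ℓ.Prime], AbsoluteGaloisGroup K →* ℚ_[ℓ]) {n : ℕ}
    (J : Matrix (Fin n) (Fin n) ℚ)
    (r : ∀ (ℓ : ℕ) [Fact ℓ.Prime], AbsoluteGaloisGroup K →* Matrix (Fin n) (Fin n) ℚ_[ℓ]) : Prop where
  alternating : Jᵀ = -J
  nondegenerate : J.det ≠ 0
  weil : ∀ v ∉ S, IsWeil v (P v)
  continuous : ∀ (ℓ : ℕ) [Fact ℓ.Prime], Continuous (r ℓ)
  similitude : ∀ (ℓ : ℕ) [Fact ℓ.Prime] (g : AbsoluteGaloisGroup K),
    (r ℓ g)ᵀ * adic ℓ J * r ℓ g = χ ℓ g • adic ℓ J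
  frobenius : ∀ (ℓ : ℕ) [Fact ℓ.Prime], ∀ v ∉ S, (ℓ : 𝓞 K) ∉ v.asIdeal →
    ∀ σ : AbsoluteGaloisGroup K, IsFrobenius v σ →
      (r ℓ σ).charpoly = (P v).map (Rat.castHom ℚ_[ℓ])

/-- the representation on the column vectors -/
noncomputable def matRep {k G : Type} [Field k] [Group G] {n : ℕ}
    (r : G →* Matrix (Fin n) (Fin n) k) : Representation k G (Fin n → k) :=
  ((Matrix.toLinAlgEquiv' (R := k) (n := Fin n)).toAlgHom.toRingHom.toMonoidHom).comp r

/-- Faltings' theorem for all prime numbers `ℓ`: the representations are semisimple, also for subgroups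
of finite index, and the matrices which commute with a subgroup of finite index are the combinations of
the elements of the set `E` of rational matrices (the endomorphisms over the algebraic closure). -/
structure IsFaltings {G : Type} [Group G] {n : ℕ} (E : Set (Matrix (Fin n) (Fin n) ℚ))
    (r : ∀ (ℓ : ℕ) [Fact ℓ.Prime], G →* Matrix (Fin n) (Fin n) ℚ_[ℓ]) : Prop where
  semisimple : ∀ (ℓ : ℕ) [Fact ℓ.Prime], FiniteIndexSemisimple (matRep (r ℓ))
  endomorphisms : ∀ (ℓ : ℕ) [Fact ℓ.Prime] (T : Matrix (Fin n) (Fin n) ℚ_[ℓ]),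
    (∃ Δ : Subgroup G, Δ.FiniteIndex ∧ ∀ g ∈ Δ, T * r ℓ g = r ℓ g * T) ↔
      T ∈ Submodule.span ℚ_[ℓ] (adic ℓ '' E)

/-- The image of Galois modulo two is large: the lattices `ℤ₂ ^ N i` are stable, the forms are integral,
`N i ≥ 6`, the `N i + 1` integral vectors `e i a` have odd products `J i (e i a, e i b)` for
`a ≠ b`, and each even permutation of the vectors `e i a` modulo two is the action of an element of the
Galois group which acts trivially on the other lattices modulo two. -/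
structure LargeModTwo {K : Type} [Field K] {ι : Type} {N : ι → ℕ}
    (J : ∀ i, Matrix (Fin (N i)) (Fin (N i)) ℚ)
    (ρ : ∀ i, AbsoluteGaloisGroup K →* Matrix (Fin (N i)) (Fin (N i)) ℚ_[2])
    (e : ∀ i, Fin (N i + 1) → Fin (N i) → ℚ_[2]) : Prop where
  rank : ∀ i, 6 ≤ N i
  integral : ∀ i g a b, ‖ρ i g a b‖ ≤ 1
  integral_form : ∀ i a b, ‖adic 2 (J i) a b‖ ≤ 1
  integral_vectors : ∀ i a b, ‖e i a b‖ ≤ 1
  products : ∀ i a b, a ≠ b → ‖e i a ⬝ᵥ adic 2 (J i) *ᵥ e i b‖ = 1
  permutations : ∀ i (π : Equiv.Perm (Fin (N i + 1))), Equiv.Perm.sign π = 1 →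
    ∃ g : AbsoluteGaloisGroup K, (∀ a b, ‖(ρ i g *ᵥ e i a - e i (π a)) b‖ < 1) ∧
      ∀ j, j ≠ i → ∀ a b, ‖(ρ j g - 1) a b‖ < 1

/-- The 2-adic realization `τ` of `B` is integral, and modulo two it does not absorb
the permutations of the frames: for each `i` some element of the Galois group acts trivially modulo two on
the lattice of `B` and permutes all the frames modulo two, the `i`-th frame not trivially; or the
factorial of `N i + 1` is greater than `2 ^ (d ^ 2 + 1)`. -/
structure FreeValues {K : Type} [Field K] {ι : Type} {N : ι → ℕ} {d : ℕ}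
    (ρ : ∀ i, AbsoluteGaloisGroup K →* Matrix (Fin (N i)) (Fin (N i)) ℚ_[2])
    (e : ∀ i, Fin (N i + 1) → Fin (N i) → ℚ_[2])
    (τ : AbsoluteGaloisGroup K →* Matrix (Fin d) (Fin d) ℚ_[2]) : Prop where
  integral : ∀ g a b, ‖τ g a b‖ ≤ 1
  free : ∀ i, 2 ^ (d ^ 2 + 1) < (N i + 1).factorial ∨
    ∃ (g : AbsoluteGaloisGroup K) (π : ∀ j, Equiv.Perm (Fin (N j + 1))),
      (∀ a b, ‖(τ g - 1) a b‖ < 1) ∧ π i ≠ 1 ∧
        ∀ j a b, ‖(ρ j g *ᵥ e j a - e j (π j a)) b‖ < 1

/-- The matrix `T` kills all Tate tensors of the representation `ρ`: all multilinear forms which are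
multiplied by `χ ^ c` on a subgroup of finite index. -/
def InLieAlgebra {k I G : Type} [Field k] [Fintype I] [DecidableEq I] [Group G]
    (ρ : G →* Matrix I I k) (χ : G →* k) (T : Matrix I I k) : Prop :=
  ∀ (a : ℕ) (c : ℤ) (f : MultilinearMap k (fun _ : Fin a => I → k) k),
    (∃ Δ : Subgroup G, Δ.FiniteIndex ∧ ∀ s ∈ Δ, ∀ u, f (fun i => ρ s *ᵥ u i) = χ s ^ c * f u) →
    ∀ u, ∑ i, f (Function.update u i (T *ᵥ u i)) = 0

/-- the index set of the direct sum -/
abbrev Index {ι : Type} (N : ι → ℕ) (d : ℕ) : Type := (Σ i, Fin (N i)) ⊕ Fin d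

/-- block diagonal matrices -/
def blocks {k ι : Type} [Field k] [DecidableEq ι] {N : ι → ℕ} {d : ℕ}
    (Z : ∀ i, Matrix (Fin (N i)) (Fin (N i)) k) (Y : Matrix (Fin d) (Fin d) k) :
    Matrix (Index N d) (Index N d) k :=
  Matrix.fromBlocks (Matrix.blockDiagonal' Z) 0 0 Y

theorem blocks_one {k ι : Type} [Field k] [Fintype ι] [DecidableEq ι] {N : ι → ℕ} {d : ℕ} :
    blocks (fun i => (1 : Matrix (Fin (N i)) (Fin (N i)) k)) (1 : Matrix (Fin d) (Fin d) k) = 1 :=
  Pool.Agent.N197.QF.blk_one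

theorem blocks_mul {k ι : Type} [Field k] [Fintype ι] [DecidableEq ι] {N : ι → ℕ} {d : ℕ}
    (Z Z' : ∀ i, Matrix (Fin (N i)) (Fin (N i)) k) (Y Y' : Matrix (Fin d) (Fin d) k) :
    blocks (fun i => Z i * Z' i) (Y * Y') = blocks Z Y * blocks Z' Y' :=
  Pool.Agent.N197.QF.blk_mul _ _ _ _

/-- the direct sum of the representations -/
def sumRep {k G ι : Type} [Field k] [Group G] [Fintype ι] [DecidableEq ι] {N : ι → ℕ} {d : ℕ}
    (r : ∀ i, G →* Matrix (Fin (N i)) (Fin (N i)) k) (R : G →* Matrix (Fin d) (Fin d) k) :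
    G →* Matrix (Index N d) (Index N d) k where
  toFun g := blocks (fun i => r i g) (R g)
  map_one' := by
    simp only [map_one]
    exact blocks_one
  map_mul' g h := by
    simp only [map_mul]
    exact blocks_mul _ _ _ _

/-- the elements of the symplectic Lie algebra of the form `J` -/
def InSp {k : Type} [Field k] {n : ℕ} (J Z : Matrix (Fin n) (Fin n) k) : Prop :=
  Zᵀ * J + J * Z = 0

/-- The Lie algebras at the prime numbers in `L` have a common ℚ-form: they are the spans over `ℚ_ℓ` of the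
same set `𝔫` of rational matrices. -/
def CommonForm {I G : Type} [Fintype I] [DecidableEq I] [Group G] (L : Set ℕ)
    (χ : ∀ (ℓ : ℕ) [Fact ℓ.Prime], G →* ℚ_[ℓ])
    (ρ : ∀ (ℓ : ℕ) [Fact ℓ.Prime], G →* Matrix I I ℚ_[ℓ]) : Prop :=
  ∃ 𝔫 : Set (Matrix I I ℚ), ∀ (ℓ : ℕ) [Fact ℓ.Prime], ℓ ∈ L → ∀ T : Matrix I I ℚ_[ℓ],
    InLieAlgebra (ρ ℓ) (χ ℓ) T ↔ T ∈ Submodule.span ℚ_[ℓ] (adic ℓ '' 𝔫)

/-- **Splitting off factors with a large image modulo two.** -/
theorem result {K : Type} [Field K] [NumberField K] {ι : Type} [Fintype ι] [Nonempty ι]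
    [DecidableEq ι] {N : ι → ℕ} {d : ℕ} (S : Set (HeightOneSpectrum (𝓞 K))) (hS : S.Finite)
    (χ : ∀ (ℓ : ℕ) [Fact ℓ.Prime], AbsoluteGaloisGroup K →* ℚ_[ℓ])
    (hχ : ∀ (ℓ : ℕ) [Fact ℓ.Prime], IsCyclotomic S ℓ (χ ℓ))
    -- the abelian varieties `A i`
    (P : ι → HeightOneSpectrum (𝓞 K) → ℚ[X]) (J : ∀ i, Matrix (Fin (N i)) (Fin (N i)) ℚ)
    (r : ∀ (i : ι) (ℓ : ℕ) [Fact ℓ.Prime],
      AbsoluteGaloisGroup K →* Matrix (Fin (N i)) (Fin (N i)) ℚ_[ℓ])
    (hA : ∀ i, IsAbelianVariety S (P i) χ (J i) (r i))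
    (E : ∀ i, Set (Matrix (Fin (N i)) (Fin (N i)) ℚ)) (hE : ∀ i, IsFaltings (E i) (r i))
    -- the image modulo two
    (e : ∀ i, Fin (N i + 1) → Fin (N i) → ℚ_[2]) (h2 : LargeModTwo J (fun i => r i 2) e)
    -- the abelian variety `B`
    (Q : HeightOneSpectrum (𝓞 K) → ℚ[X]) (J' : Matrix (Fin d) (Fin d) ℚ)
    (R : ∀ (ℓ : ℕ) [Fact ℓ.Prime], AbsoluteGaloisGroup K →* Matrix (Fin d) (Fin d) ℚ_[ℓ])
    (hB : IsAbelianVariety S Q χ J' R) (hfree : FreeValues (fun i => r i 2) e (R 2)) :
    -- (1)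
    (∀ (ℓ : ℕ) [Fact ℓ.Prime] (T : Matrix (Index N d) (Index N d) ℚ_[ℓ]),
      InLieAlgebra (sumRep (fun i => r i ℓ) (R ℓ)) (χ ℓ) T ↔
        ∃ (Z : ∀ i, Matrix (Fin (N i)) (Fin (N i)) ℚ_[ℓ]) (Y : Matrix (Fin d) (Fin d) ℚ_[ℓ]),
          (∀ i, InSp (adic ℓ (J i)) (Z i)) ∧ InLieAlgebra (R ℓ) (χ ℓ) Y ∧ T = blocks Z Y) ∧
    -- (2)
    ∀ L : Set ℕ, CommonForm L χ (fun ℓ _ => sumRep (fun i => r i ℓ) (R ℓ)) ↔ CommonForm L χ R := by
  have hdet : ∀ (ℓ : ℕ) [Fact ℓ.Prime] {n : ℕ} (M : Matrix (Fin n) (Fin n) ℚ), M.det ≠ 0 →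
      (adic ℓ M).det ≠ 0 := fun ℓ _ n M hM => by
    have h1 : (adic ℓ M).det = Rat.castHom ℚ_[ℓ] M.det :=
      (RingHom.map_det (Rat.castHom ℚ_[ℓ]) M).symm
    rw [h1]
    exact (_root_.map_ne_zero _).2 hM
  have halt : ∀ (ℓ : ℕ) [Fact ℓ.Prime] {n : ℕ} (M : Matrix (Fin n) (Fin n) ℚ), Mᵀ = -M →
      (adic ℓ M)ᵀ = -adic ℓ M := fun ℓ _ n M hM => by
    have h1 : (adic ℓ M)ᵀ = adic ℓ Mᵀ := rfl
    rw [h1, hM]
    exact Matrix.ext fun i j => map_neg (Rat.castHom ℚ_[ℓ]) (M i j)
  have hP : ∀ v ∉ S, ∀ i, ∀ z : ℂ, aeval z (P i v) = 0 →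
      ‖z‖ ^ 2 = (Ideal.absNorm v.asIdeal : ℝ) ∧
        IsIntegral ℤ ((Ideal.absNorm v.asIdeal : ℂ) ^ 0 * z) := fun v hv i z hz => by
    rw [pow_zero, one_mul]
    exact (hA i).weil v hv z hz
  have hQ : ∀ v ∉ S, ∀ z : ℂ, aeval z (Q v) = 0 →
      ‖z‖ ^ 2 = (Ideal.absNorm v.asIdeal : ℝ) ^ (1 : ℤ) ∧
        IsIntegral ℤ ((Ideal.absNorm v.asIdeal : ℂ) ^ 0 * z) := fun v hv z hz => by
    rw [pow_zero, one_mul, zpow_one]
    exact hB.weil v hv z hz
  have hsc : ∀ (i : ι) (ℓ : ℕ) [Fact ℓ.Prime] (T : Matrix (Fin (N i)) (Fin (N i)) ℚ_[ℓ]),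
      (∃ Δ : Subgroup (AbsoluteGaloisGroup K), Δ.FiniteIndex ∧
        ∀ g ∈ Δ, T * r i ℓ g = r i ℓ g * T) → ∃ c : ℚ_[ℓ], T = c • 1 := fun i ℓ _ T hT =>
    Pool.Agent.N197.QF.scal_all (lt_of_lt_of_le (by norm_num) (h2.rank i)) (E i) (r i)
      (hE i).endomorphisms
      (Pool.Agent.N197.QF.scal_two (fun i => adic 2 (J i)) (fun i => r i 2) (χ 2)
        (fun i => halt 2 _ (hA i).alternating) (fun i => hdet 2 _ (hA i).nondegenerate)
        (fun i g => (hA i).similitude 2 g) e h2.rank h2.integral h2.integral_form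
        h2.integral_vectors h2.products h2.permutations (R 2) hfree.integral hfree.free i) ℓ T hT
  have hone : ∀ (ℓ : ℕ) [Fact ℓ.Prime] (T : Matrix (Index N d) (Index N d) ℚ_[ℓ]),
      InLieAlgebra (sumRep (fun i => r i ℓ) (R ℓ)) (χ ℓ) T ↔
        ∃ (Z : ∀ i, Matrix (Fin (N i)) (Fin (N i)) ℚ_[ℓ]) (Y : Matrix (Fin d) (Fin d) ℚ_[ℓ]),
          (∀ i, InSp (adic ℓ (J i)) (Z i)) ∧ InLieAlgebra (R ℓ) (χ ℓ) Y ∧ T = blocks Z Y := by
    intro ℓ hℓ T
    obtain ⟨φ, hφ, hφ'⟩ := Pool.Agent.N197.QF.polar (adic ℓ J') (hdet ℓ _ hB.nondegenerate) (R ℓ)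
      (χ ℓ) 1 (fun g => by rw [zpow_one]; exact hB.similitude ℓ g)
    exact Pool.Agent.N197.QF.lie_transport (fun i => adic ℓ (J i)) (fun i => r i ℓ) (R ℓ) (χ ℓ)
      (fun T' => Pool.Agent.N197.QF.lie_prod (m := 0) (w := 1) S hS P Q hP hQ χ
        (fun i ℓ _ => adic ℓ (J i)) r (fun i ℓ _ => (hA i).continuous ℓ)
        (fun i ℓ _ => halt ℓ _ (hA i).alternating) (fun i ℓ _ => hdet ℓ _ (hA i).nondegenerate)
        (fun i ℓ _ g => (hA i).similitude ℓ g) (fun ℓ _ => (hχ ℓ).frobenius)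
        (fun i ℓ _ => (hA i).frobenius ℓ) e h2.rank h2.integral h2.integral_form
        h2.integral_vectors h2.products h2.permutations R (hB.continuous 2) hfree.integral
        hfree.free (fun ℓ _ => hB.frobenius ℓ) ℓ (fun i => (hE i).semisimple ℓ)
        (fun i => hsc i ℓ) φ 1 hφ hφ' T') T
  refine ⟨fun ℓ _ T => hone ℓ T, fun L => ?_⟩
  have h3 := Pool.Agent.N197.QF.common_form (S := {ℓ : ℕ // ℓ.Prime ∧ ℓ ∈ L})
    (kk := fun s => @Padic s.1 ⟨s.2.1⟩) (N := N) (d := d) J
    (fun s => {T | @InLieAlgebra (@Padic s.1 ⟨s.2.1⟩) _ _ _ _ _ _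
      (sumRep (fun i => @r i s.1 ⟨s.2.1⟩) (@R s.1 ⟨s.2.1⟩)) (@χ s.1 ⟨s.2.1⟩) T})
    (fun s => { carrier := {T | @InLieAlgebra (@Padic s.1 ⟨s.2.1⟩) _ _ _ _ _ _
                  (@R s.1 ⟨s.2.1⟩) (@χ s.1 ⟨s.2.1⟩) T}
                add_mem' := fun h h' => Pool.Agent.N197.QF.inLieM_add _ _ h h'
                zero_mem' := Pool.Agent.N197.QF.inLieM_zero _ _
                smul_mem' := fun c _ h => Pool.Agent.N197.QF.inLieM_smul _ _ c h })
    (fun s T => @hone s.1 ⟨s.2.1⟩ T)
  constructor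
  · rintro ⟨𝔫, h𝔫⟩
    obtain ⟨𝔪, h𝔪⟩ := h3.1 ⟨𝔫, fun s T => @h𝔫 s.1 ⟨s.2.1⟩ s.2.2 T⟩
    exact ⟨𝔪, fun ℓ hℓ hL T => h𝔪 ⟨ℓ, hℓ.out, hL⟩ T⟩
  · rintro ⟨𝔫, h𝔫⟩
    obtain ⟨𝔪, h𝔪⟩ := h3.2 ⟨𝔫, fun s T => @h𝔫 s.1 ⟨s.2.1⟩ s.2.2 T⟩
    exact ⟨𝔪, fun ℓ hℓ hL T => h𝔪 ⟨ℓ, hℓ.out, hL⟩ T⟩

end Pool.Agent.Results.MP_e965d0_ag.LargeImageModTwoFactors
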