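import Mathlib
import Pool.Agent.N183.U9.L3

/-!
# Common `ℚ`-forms of monodromy groups: splitting off good factors

Let `X` be an abelian variety over a number field, and let `G_ℓ(X)` be the identity component of the
Zariski closure of the image of the Galois group in `GL(V_ℓ(X))`. The question is whether there is a
reductive group over `ℚ` which gives `G_ℓ(X)` for all large `ℓ`. Let `X` be isogenous to `A × B`,
where `A` and `B` have no common simple factor over `ℂ`, and suppose that each simple factor `Y` of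
`A` (but nothing is supposed about `B`) is without complex multiplication, and belongs to one of the
following classes (`GoodNC`).

* The dimension of `Y` is at most three.
* `RealOdd`: `Y` is of Albert type I or II, of relative dimension odd or at most three.
* `Y` is of Albert type I or II (`RealMax`) and satisfies `GalMultTwo`, see below.
* `Y` is of type IV and `Wide` (all embeddings `s` of a maximal subfield `ℚ[a]` of the endomorphism
  algebra occur in the tangent space, and the dimension `r` of the eigenspaces `V_s` is at most three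
  or some `s` and its complex conjugate have multiplicity at least two), and satisfies
  - `QuadThree`: the endomorphism algebra is an imaginary quadratic field, and its multiplicities on
    the tangent space are at most three, or
  - `CopMult`: the multiplicity of some `s` in the tangent space is prime to `r`, or
  - `GalMultTwo`: for each `s` there is a pseudo-reflection or a transvection of `V_s` conjugation by
    which is a combination of conjugations by elements of the Galois group which commute with the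
    endomorphisms, or such an element acts on `V_s` with eigenvalues in two classes of coprime
    multiplicities, for instance a Frobenius element with two Newton slopes. (This is a condition for
    each `ℓ ∈ Λ`; the others do not depend on `ℓ`.)

The theorem says that the question for `X` is equivalent to the question for `B`. More precisely, let
`𝔤'_ℓ(X)` be the derived Lie algebra of `G_ℓ(X)` (`InG`), and let `𝔫_A` be the Lie algebra over `ℚ` of
the endomorphisms of `H_1(X, ℚ)` which commute with the endomorphisms of `X`, are skew for the Riemann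
form, have trace zero with the endomorphisms of `X` and are zero on `B` (`InNA`); it is a product of
restrictions of scalars of symplectic and special unitary Lie algebras. Then

1. `𝔤'_ℓ(X) = (ℚ_ℓ ⊗ 𝔫_A) ⊕ 𝔤'_ℓ(B)`, for each `ℓ` (`InSum`). Here `𝔤'_ℓ(B)` is given by the
   elements of `𝔤'_ℓ(X)` which are zero on `A` (`InGB`); it is the derived Lie algebra of `G_ℓ(B)`,
   since `G_ℓ(X)` is mapped onto `G_ℓ(B)`, and the first summand acts as zero on `B`.
2. For each set `Λ` of prime numbers, for instance all `ℓ ≥ ℓ₀`, the Lie algebras `𝔤'_ℓ(X)`, `ℓ ∈ Λ`,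
   have a common `ℚ`-form if and only if the Lie algebras `𝔤'_ℓ(B)`, `ℓ ∈ Λ`, have one.

The centre of `G_ℓ` has a common `ℚ`-form, the centre of the Mumford-Tate group (Serre, Vasiu,
Ullmo-Yafaev), and `G_ℓ` is reductive (Faltings); so the groups `G_ℓ` have a common `ℚ`-form if and
only if the derived Lie algebras have one.

The Mumford-Tate conjecture is not supposed for `B` (if it is true for `B` then it is true for `X`, by
the theorem of Vasiu and Commelin). A product of two abelian varieties with a common `ℚ`-form need not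
have one, as far as known: the two groups could have isomorphic factors for some `ℓ`, linked by the
Galois group in a way which depends on `ℓ`. The theorem says that this does not happen here. The
proof is as for `Pool.Agent.Results.MP_09799c_ag.OneGoodFactor`: each ideal `𝔰𝔭` or `𝔰𝔩` of the Lie
algebra over `ℂ` which acts nontrivially on `V_s(Y)` acts as zero on all irreducible submodules of
`V(X)` which are not isomorphic to `V_s(Y)` or its dual, since all Hodge-Tate elements have only two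
eigenvalues and act on `V_s(Y)` not by scalars.
-/

namespace Pool.Agent.Results.MP_e965d0_ag.SplittingOffFactors

open Module Pool.Agent.Y90 Pool.Agent.R915 Pool.Agent.N183.U8 Pool.Agent.N183.U9 TensorProduct
open Pool.Agent.Y224.TS.St (IsTateModule)

/-- The representation `ρ` of the Galois group on the Tate module `ℚ_ℓ ⊗ H_1(X, ℚ)` has the known
properties, and each simple factor of `A = ker(p)` belongs to one of the classes, for some
identification of `ℂ` with an algebraic closure of `ℚ_ℓ`. -/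
def GoodAt (X : AV) (E : X.H → X.H → ℚ) (p : Module.End ℚ X.H) (ℓ : ℕ) [Fact ℓ.Prime] {Γ : Type}
    [Group Γ] (ρ : Representation ℚ_[ℓ] Γ (ℚ_[ℓ] ⊗[ℚ] X.H)) (χ : Γ →* ℚ_[ℓ]) : Prop :=
  ∃ _ : Algebra ℚ_[ℓ] ℂ, Algebra.IsAlgebraic ℚ_[ℓ] ℂ ∧ IsTateModule X.per E ρ χ ∧
    ∀ Y : AV, IsKerFactor X p Y → GoodNC X ρ Y

/-- The spaces of endomorphisms of `ℚ_ℓ ⊗ H_1(X, ℚ)` given by `P`, for `ℓ ∈ Λ`, have a common
`ℚ`-form: they are the spans of a set `M` of endomorphisms of `H_1(X, ℚ)` independent of `ℓ`. -/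
def CommonForm (X : AV) (Λ : Set ℕ)
    (P : ∀ (ℓ : ℕ) [Fact ℓ.Prime], Module.End ℚ_[ℓ] (ℚ_[ℓ] ⊗[ℚ] X.H) → Prop) : Prop :=
  ∃ M : Set (Module.End ℚ X.H), ∀ (ℓ : ℕ) [Fact ℓ.Prime], ℓ ∈ Λ →
    ∀ T : Module.End ℚ_[ℓ] (ℚ_[ℓ] ⊗[ℚ] X.H),
      P ℓ T ↔ T ∈ Submodule.span ℚ_[ℓ] (bc ℚ_[ℓ] '' M)

/-- **Splitting off good factors.** Let `p` be the projection of `X` on an abelian subvariety `B` up
to isogeny, along an abelian subvariety `A` all simple factors of which belong to the classes above.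
Then for each `ℓ ∈ Λ` the derived Lie algebra of the monodromy group is the sum of `ℚ_ℓ ⊗ 𝔫_A` and of
the part of `B`; and the derived Lie algebras of the monodromy groups of `X`, `ℓ ∈ Λ`, have a common
`ℚ`-form if and only if the parts of `B` have one. -/
theorem result (X : AV) (E : X.H → X.H → ℚ) (hE : Pool.Agent.Y90.St.IsPolarization X.per E)
    (p : Module.End ℚ X.H) (hp : IsProj X E p) {Γ : Type} [Group Γ]
    (ρ : ∀ (ℓ : ℕ) [Fact ℓ.Prime], Representation ℚ_[ℓ] Γ (ℚ_[ℓ] ⊗[ℚ] X.H))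
    (χ : ∀ (ℓ : ℕ) [Fact ℓ.Prime], Γ →* ℚ_[ℓ]) (Λ : Set ℕ)
    (h : ∀ (ℓ : ℕ) [Fact ℓ.Prime], ℓ ∈ Λ → GoodAt X E p ℓ (ρ ℓ) (χ ℓ)) :
    (∀ (ℓ : ℕ) [Fact ℓ.Prime], ℓ ∈ Λ → InSum X E (ρ ℓ) (χ ℓ) p) ∧
    (CommonForm X Λ (fun ℓ _ T => InG X (ρ ℓ) (χ ℓ) T) ↔
      CommonForm X Λ (fun ℓ _ T => InGB X (ρ ℓ) (χ ℓ) p T)) := by
  have hdec : ∀ (ℓ : ℕ) [Fact ℓ.Prime], ℓ ∈ Λ → ∀ T : Module.End ℚ_[ℓ] (ℚ_[ℓ] ⊗[ℚ] X.H),
      InG X (ρ ℓ) (χ ℓ) T ↔
        T * bc ℚ_[ℓ] (1 - p) ∈
          Submodule.span ℚ_[ℓ] (bc ℚ_[ℓ] '' {t | InNA X E p t}) ∧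
        InG X (ρ ℓ) (χ ℓ) (T * bc ℚ_[ℓ] p) := by
    intro ℓ _ hℓ T
    obtain ⟨_, _, hρ, hA⟩ := h ℓ hℓ
    exact lie_dec hE hρ hp hA T
  have hspan : ∀ (ℓ : ℕ) [Fact ℓ.Prime], ℓ ∈ Λ → ∀ T : Module.End ℚ_[ℓ] (ℚ_[ℓ] ⊗[ℚ] X.H),
      T ∈ Submodule.span ℚ_[ℓ] (bc ℚ_[ℓ] '' {t | InNA X E p t}) →
        InG X (ρ ℓ) (χ ℓ) T := by
    intro ℓ _ hℓ T hT
    obtain ⟨_, _, hρ, hA⟩ := h ℓ hℓ
    exact inG_of_span hE hρ hp hA hT
  have hpp : ∀ (ℓ : ℕ) [Fact ℓ.Prime] (T : Module.End ℚ_[ℓ] (ℚ_[ℓ] ⊗[ℚ] X.H)),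
      T * bc ℚ_[ℓ] p * bc ℚ_[ℓ] (1 - p) = 0 := by
    intro ℓ _ T
    rw [mul_assoc, ← bc_mul, mul_sub, mul_one, hp.idem, sub_self, bc_zero, mul_zero]
  refine ⟨fun ℓ _ hℓ T => ⟨fun hT => ?_, ?_⟩, ?_, ?_⟩
  · obtain ⟨h1, h2⟩ := (hdec ℓ hℓ T).1 hT
    exact ⟨_, _, split (K := ℚ_[ℓ]) (p := p) (T := T), h1, h2, hpp ℓ T⟩
  · rintro ⟨T₁, T₂, rfl, h1, h2⟩
    exact (hspan ℓ hℓ T₁ h1).add h2.1
  · rintro ⟨M, hM⟩
    refine ⟨{s | ∃ t ∈ M, s = t * p}, fun ℓ _ hℓ T => ⟨?_, fun hT => ?_⟩⟩
    · rintro ⟨h1, h2⟩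
      have h3 := (hM ℓ hℓ T).1 h1
      have h4 : T = T * bc ℚ_[ℓ] p := by
        have h5 := split (K := ℚ_[ℓ]) (p := p) (T := T)
        have h6 : T * bc ℚ_[ℓ] (1 - p) = 0 := h2
        rw [h6, zero_add] at h5
        exact h5
      rw [h4]
      clear h4 h1 h2
      induction h3 using Submodule.span_induction with
      | mem S hS =>
        obtain ⟨t, ht, rfl⟩ := hS
        exact Submodule.subset_span ⟨t * p, ⟨t, ht, rfl⟩, bc_mul t p⟩
      | zero => rw [zero_mul]; exact Submodule.zero_mem _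
      | add S S' _ _ hS hS' => rw [add_mul]; exact Submodule.add_mem _ hS hS'
      | smul c S _ hS => rw [smul_mul_assoc]; exact Submodule.smul_mem _ c hS
    · induction hT using Submodule.span_induction with
      | mem S hS =>
        obtain ⟨_, ⟨t, ht, rfl⟩, rfl⟩ := hS
        have h1 : InG X (ρ ℓ) (χ ℓ) (bc ℚ_[ℓ] t) :=
          (hM ℓ hℓ _).2 (Submodule.subset_span ⟨t, ht, rfl⟩)
        have h2 := ((hdec ℓ hℓ _).1 h1).2
        have h3 := hpp ℓ (bc ℚ_[ℓ] t)
        rw [← bc_mul] at h2 h3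
        exact ⟨h2, h3⟩
      | zero => exact ⟨InG.zero, zero_mul _⟩
      | add S S' _ _ hS hS' =>
        exact ⟨hS.1.add hS'.1, by rw [add_mul, hS.2, hS'.2, add_zero]⟩
      | smul c S _ hS => exact ⟨hS.1.smul c, by rw [smul_mul_assoc, hS.2, smul_zero]⟩
  · rintro ⟨M, hM⟩
    refine ⟨{s | InNA X E p s} ∪ M, fun ℓ _ hℓ T => ⟨fun hT => ?_, fun hT => ?_⟩⟩
    · obtain ⟨h1, h2⟩ := (hdec ℓ hℓ T).1 hT
      have h3 := (hM ℓ hℓ (T * bc ℚ_[ℓ] p)).1 ⟨h2, hpp ℓ T⟩
      rw [split (K := ℚ_[ℓ]) (p := p) (T := T)]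
      refine Submodule.add_mem _ (Submodule.span_mono ?_ h1) (Submodule.span_mono ?_ h3)
      · rintro _ ⟨t, ht, rfl⟩
        exact ⟨t, Or.inl ht, rfl⟩
      · rintro _ ⟨t, ht, rfl⟩
        exact ⟨t, Or.inr ht, rfl⟩
    · refine InG.span ?_ hT
      rintro _ ⟨t, ht | ht, rfl⟩
      · exact hspan ℓ hℓ _ (Submodule.subset_span ⟨t, ht, rfl⟩)
      · exact ((hM ℓ hℓ _).2 (Submodule.subset_span ⟨t, ht, rfl⟩)).1

end Pool.Agent.Results.MP_e965d0_ag.SplittingOffFactors
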